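import Pool.Agent.W2helper31.GP.Stm5
import Pool.Agent.W2helper11.GP.MARG

/-!
# Piece TWO: the Gaussian product inequality for two unit vectors and equal exponents

Both exponents are equal: a Gaussian pair with correlation `c ≥ 0` has the law of
`(√c g + √(1-c) w, √c g + √(1-c) w')`, independent and identically distributed given `g`.
-/

set_option autoImplicit false

open MeasureTheory ProbabilityTheory Complex
open scoped ENNReal NNReal

namespace Pool.Agent.W2helper93.GP5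

open Pool.Agent.W2helper31.GP

noncomputable abbrev g1 : Measure ℝ := gaussianReal 0 1

noncomputable abbrev g3 : Measure (ℝ × ℝ × ℝ) := g1.prod (g1.prod g1)

theorem cf1 (t : ℝ) : ∫ x, cexp (((t * x : ℝ) : ℂ) * I) ∂g1 = cexp (-((t : ℂ) ^ 2 / 2)) := by
  have h := charFun_gaussianReal (μ := 0) (v := 1) t
  rw [charFun_apply_real] at h
  have e : ∀ x : ℝ, (((t * x : ℝ) : ℂ) * I) = (t : ℂ) * x * I := fun x => by push_cast; ring
  simp only [e]
  rw [h]
  congr 1
  push_cast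
  simp

theorem cf2 (d : Fin 2 → ℝ) : ∫ x, cexp (((∑ j, d j * x j : ℝ) : ℂ) * I) ∂(Gam 2) =
    cexp (-(((d 0 ^ 2 + d 1 ^ 2 : ℝ) : ℂ) / 2)) := by
  have e : ∀ x : Fin 2 → ℝ, cexp (((∑ j, d j * x j : ℝ) : ℂ) * I) =
      ∏ j, cexp (((d j * x j : ℝ) : ℂ) * I) := by
    intro x
    rw [← Complex.exp_sum]
    congr 1
    push_cast
    rw [Finset.sum_mul]
  simp only [e]
  rw [Gam, integral_fintype_prod_eq_prod (μ := fun _ : Fin 2 => g1)
    (fun (j : Fin 2) (x : ℝ) => cexp (((d j * x : ℝ) : ℂ) * I))]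
  rw [Fin.prod_univ_two, cf1, cf1, ← Complex.exp_add]
  congr 1
  push_cast
  ring

theorem cf3 (a b c : ℝ) : ∫ x, cexp (((a * x.1 + b * x.2.1 + c * x.2.2 : ℝ) : ℂ) * I) ∂g3 =
    cexp (-(((a ^ 2 + b ^ 2 + c ^ 2 : ℝ) : ℂ) / 2)) := by
  have e : ∀ x : ℝ × ℝ × ℝ, cexp (((a * x.1 + b * x.2.1 + c * x.2.2 : ℝ) : ℂ) * I) =
      (fun g : ℝ => cexp (((a * g : ℝ) : ℂ) * I)) x.1 *
      (fun z : ℝ × ℝ => (fun w : ℝ => cexp (((b * w : ℝ) : ℂ) * I)) z.1 *
        (fun w : ℝ => cexp (((c * w : ℝ) : ℂ) * I)) z.2) x.2 := by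
    intro x
    simp only []
    rw [← Complex.exp_add, ← Complex.exp_add]
    congr 1
    push_cast
    ring
  simp only [e]
  rw [integral_prod_mul (fun g : ℝ => cexp (((a * g : ℝ) : ℂ) * I))
      (fun z : ℝ × ℝ => (fun w : ℝ => cexp (((b * w : ℝ) : ℂ) * I)) z.1 *
        (fun w : ℝ => cexp (((c * w : ℝ) : ℂ) * I)) z.2)]
  rw [integral_prod_mul (fun w : ℝ => cexp (((b * w : ℝ) : ℂ) * I))
    (fun w : ℝ => cexp (((c * w : ℝ) : ℂ) * I))]
  rw [cf1, cf1, cf1, ← Complex.exp_add, ← Complex.exp_add]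
  congr 1
  push_cast
  ring

/-- the pair of linear forms -/
def pr (b : Fin 2 → Fin 2 → ℝ) (x : Fin 2 → ℝ) : ℝ × ℝ := (∑ j, b 0 j * x j, ∑ j, b 1 j * x j)

/-- the conditionally independent pair -/
def pr' (s t : ℝ) (x : ℝ × ℝ × ℝ) : ℝ × ℝ := (s * x.1 + t * x.2.1, s * x.1 + t * x.2.2)

theorem pr_meas (b : Fin 2 → Fin 2 → ℝ) : Measurable (pr b) := by
  unfold pr
  fun_prop

theorem pr'_meas (s t : ℝ) : Measurable (pr' s t) := by
  unfold pr'
  fun_prop

instance : IsProbabilityMeasure (Gam 2) := by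
  unfold Gam
  infer_instance

theorem law (b : Fin 2 → Fin 2 → ℝ) (hb : ∀ i, ∑ j, b i j ^ 2 = 1) (s t : ℝ)
    (hs : s ^ 2 = ∑ j, b 0 j * b 1 j) (hst : s ^ 2 + t ^ 2 = 1) :
    (Gam 2).map (pr b) = g3.map (pr' s t) := by
  have i1 : IsProbabilityMeasure ((Gam 2).map (pr b)) :=
    Measure.isProbabilityMeasure_map (pr_meas b).aemeasurable
  have i2 : IsProbabilityMeasure (g3.map (pr' s t)) :=
    Measure.isProbabilityMeasure_map (pr'_meas s t).aemeasurable
  refine Measure.ext_of_charFunDual ?_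
  ext L
  rw [charFunDual_apply, charFunDual_apply]
  have hL : ∀ z : ℝ × ℝ, L z = L (1, 0) * z.1 + L (0, 1) * z.2 := by
    intro z
    have e : z = z.1 • ((1 : ℝ), (0 : ℝ)) + z.2 • ((0 : ℝ), (1 : ℝ)) := by
      ext <;> simp
    conv_lhs => rw [e]
    rw [map_add, map_smul, map_smul, smul_eq_mul, smul_eq_mul]
    ring
  set u := L (1, 0)
  set v := L (0, 1)
  rw [integral_map (pr_meas b).aemeasurable
      (Measurable.aestronglyMeasurable (by fun_prop)),
    integral_map (pr'_meas s t).aemeasurable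
      (Measurable.aestronglyMeasurable (by fun_prop))]
  have e1 : ∀ x : Fin 2 → ℝ, L (pr b x) = ∑ j, (fun j => u * b 0 j + v * b 1 j) j * x j := by
    intro x
    rw [hL, pr]
    simp only [Fin.sum_univ_two]
    ring
  have e2 : ∀ x : ℝ × ℝ × ℝ, L (pr' s t x) =
      ((u + v) * s) * x.1 + (u * t) * x.2.1 + (v * t) * x.2.2 := by
    intro x
    rw [hL, pr']
    ring
  simp only [e1, e2]
  have c2 := cf2 (fun j => u * b 0 j + v * b 1 j)
  have c3 := cf3 ((u + v) * s) (u * t) (v * t)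
  rw [c2, c3]
  congr 3
  have h0 := hb 0
  have h1 := hb 1
  rw [Fin.sum_univ_two] at h0 h1 hs
  congr 1
  have ht : t ^ 2 = 1 - s ^ 2 := by linarith
  calc (u * b 0 0 + v * b 1 0) ^ 2 + (u * b 0 1 + v * b 1 1) ^ 2
      = u ^ 2 * (b 0 0 ^ 2 + b 0 1 ^ 2) + v ^ 2 * (b 1 0 ^ 2 + b 1 1 ^ 2) +
        2 * u * v * (b 0 0 * b 1 0 + b 0 1 * b 1 1) := by ring
    _ = u ^ 2 + v ^ 2 + 2 * u * v * s ^ 2 := by rw [h0, h1, hs]; ring
    _ = ((u + v) * s) ^ 2 + (u * t) ^ 2 + (v * t) ^ 2 := by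
        have : ((u + v) * s) ^ 2 + (u * t) ^ 2 + (v * t) ^ 2 =
          (u + v) ^ 2 * s ^ 2 + (u ^ 2 + v ^ 2) * t ^ 2 := by ring
        rw [this, ht]
        ring

theorem rp_le (nu : ℝ) (h0 : 0 < nu) (h1 : nu ≤ 1 / 2) (x : ℝ) : |x| ^ (2 * nu) ≤ 1 + |x| := by
  rcases le_total |x| 1 with h | h
  · have := Real.rpow_le_one (abs_nonneg x) h (by linarith : 0 ≤ 2 * nu)
    linarith [abs_nonneg x]
  · have := Real.rpow_le_rpow_of_exponent_le h (by linarith : 2 * nu ≤ 1)
    rw [Real.rpow_one] at this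
    linarith

theorem meas_rp (nu : ℝ) (h0 : 0 < nu) : Continuous fun x : ℝ => |x| ^ (2 * nu) :=
  continuous_abs.rpow_const fun _ => Or.inr (by linarith)

theorem two_pos (b : Fin 2 → Fin 2 → ℝ) (nu : ℝ) (hb : ∀ i, ∑ j, b i j ^ 2 = 1) (h0 : 0 < nu)
    (h1 : nu ≤ 1 / 2) (hc : 0 ≤ ∑ j, b 0 j * b 1 j) :
    (∫ x, |x| ^ (2 * nu) ∂(gaussianReal 0 1)) * (∫ x, |x| ^ (2 * nu) ∂(gaussianReal 0 1)) ≤
      ∫ x : Fin 2 → ℝ, |∑ j, b 0 j * x j| ^ (2 * nu) * |∑ j, b 1 j * x j| ^ (2 * nu) ∂(Gam 2) := by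
  set c := ∑ j, b 0 j * b 1 j with hcdef
  have hc1 : c ≤ 1 := by
    have h2 := hb 0
    have h3 := hb 1
    rw [Fin.sum_univ_two] at h2 h3
    rw [hcdef, Fin.sum_univ_two]
    nlinarith [sq_nonneg (b 0 0 - b 1 0), sq_nonneg (b 0 1 - b 1 1)]
  set s := Real.sqrt c with hs
  set t := Real.sqrt (1 - c) with ht
  have hs2 : s ^ 2 = c := Real.sq_sqrt hc
  have ht2 : t ^ 2 = 1 - c := Real.sq_sqrt (by linarith)
  have hlaw := law b hb s t hs2 (by rw [hs2, ht2]; ring)
  set f : ℝ → ℝ := fun x => |x| ^ (2 * nu) with hf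
  have hfc : Continuous f := meas_rp nu h0
  have hf0 : ∀ x, 0 ≤ f x := fun x => Real.rpow_nonneg (abs_nonneg x) _
  have hf1 : ∀ x, f x ≤ 1 + |x| := rp_le nu h0 h1
  -- the laws of the coordinates
  have mar0 : g3.map (fun x => s * x.1 + t * x.2.1) = g1 := by
    have e1 : (fun x : ℝ × ℝ × ℝ => s * x.1 + t * x.2.1) = Prod.fst ∘ pr' s t := rfl
    rw [e1, ← Measure.map_map measurable_fst (pr'_meas s t), ← hlaw,
      Measure.map_map measurable_fst (pr_meas b)]
    exact Pool.Agent.W2helper11.GP.p_MARG.1 2 (b 0) (hb 0)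
  have mar1 : g3.map (fun x => s * x.1 + t * x.2.2) = g1 := by
    have e1 : (fun x : ℝ × ℝ × ℝ => s * x.1 + t * x.2.2) = Prod.snd ∘ pr' s t := rfl
    rw [e1, ← Measure.map_map measurable_snd (pr'_meas s t), ← hlaw,
      Measure.map_map measurable_snd (pr_meas b)]
    exact Pool.Agent.W2helper11.GP.p_MARG.1 2 (b 1) (hb 1)
  have hsq : Integrable (fun x : ℝ => x ^ 2) g1 := Pool.Agent.W2helper11.GP.sq_int.1
  have m0 : Measurable (fun x : ℝ × ℝ × ℝ => s * x.1 + t * x.2.1) := by fun_prop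
  have m1 : Measurable (fun x : ℝ × ℝ × ℝ => s * x.1 + t * x.2.2) := by fun_prop
  have sq0 : Integrable (fun x : ℝ × ℝ × ℝ => (s * x.1 + t * x.2.1) ^ 2) g3 := by
    have h := hsq
    rw [← mar0] at h
    exact (integrable_map_measure (by fun_prop) m0.aemeasurable).1 h
  have sq1 : Integrable (fun x : ℝ × ℝ × ℝ => (s * x.1 + t * x.2.2) ^ 2) g3 := by
    have h := hsq
    rw [← mar1] at h
    exact (integrable_map_measure (by fun_prop) m1.aemeasurable).1 h
  have hfi : Integrable f g1 := by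
    refine Integrable.mono' ((integrable_const (2 : ℝ)).add hsq) hfc.aestronglyMeasurable ?_
    refine Filter.Eventually.of_forall fun x => ?_
    rw [Real.norm_of_nonneg (hf0 x)]
    simp only [Pi.add_apply]
    have := hf1 x
    nlinarith [sq_nonneg (|x| - 1), sq_abs x, abs_nonneg x]
  have int0 : Integrable (fun x : ℝ × ℝ × ℝ => f (s * x.1 + t * x.2.1)) g3 := by
    have h := hfi
    rw [← mar0] at h
    exact (integrable_map_measure hfc.aestronglyMeasurable m0.aemeasurable).1 h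
  have int2 : Integrable (fun x : ℝ × ℝ × ℝ =>
      f (s * x.1 + t * x.2.1) * f (s * x.1 + t * x.2.2)) g3 := by
    refine Integrable.mono' (((integrable_const (2 : ℝ)).add sq0).add sq1)
      ((hfc.measurable.comp m0).mul (hfc.measurable.comp m1)).aestronglyMeasurable ?_
    refine Filter.Eventually.of_forall fun x => ?_
    rw [Real.norm_of_nonneg (mul_nonneg (hf0 _) (hf0 _))]
    simp only [Pi.add_apply]
    have h2 := hf1 (s * x.1 + t * x.2.1)
    have h3 := hf1 (s * x.1 + t * x.2.2)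
    have h4 := mul_le_mul h2 h3 (hf0 _) (by linarith [abs_nonneg (s * x.1 + t * x.2.1)])
    nlinarith [sq_nonneg (|s * x.1 + t * x.2.1| - 1), sq_nonneg (|s * x.1 + t * x.2.2| - 1),
      sq_nonneg (|s * x.1 + t * x.2.1| - |s * x.1 + t * x.2.2|),
      sq_abs (s * x.1 + t * x.2.1), sq_abs (s * x.1 + t * x.2.2),
      abs_nonneg (s * x.1 + t * x.2.1), abs_nonneg (s * x.1 + t * x.2.2)]
  set m : ℝ → ℝ := fun g => ∫ w, f (s * g + t * w) ∂g1 with hm
  have in0 : ∀ g : ℝ, ∫ z : ℝ × ℝ, f (s * g + t * z.1) ∂(g1.prod g1) = m g := by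
    intro g
    have h := integral_prod_mul (μ := g1) (ν := g1) (fun w : ℝ => f (s * g + t * w))
      (fun _ : ℝ => (1 : ℝ))
    simpa using h
  have in2 : ∀ g : ℝ, ∫ z : ℝ × ℝ, f (s * g + t * z.1) * f (s * g + t * z.2) ∂(g1.prod g1) =
      m g ^ 2 := by
    intro g
    have h := integral_prod_mul (μ := g1) (ν := g1) (fun w : ℝ => f (s * g + t * w))
      (fun w : ℝ => f (s * g + t * w))
    rw [h, sq]
  have im : Integrable m g1 := by
    have h := int0.integral_prod_left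
    simpa only [in0] using h
  have im2 : Integrable (fun g => m g ^ 2) g1 := by
    have h := int2.integral_prod_left
    simpa only [in2] using h
  have M0 : ∫ g, m g ∂g1 = ∫ x, f x ∂g1 := by
    have h := integral_prod _ int0
    simp only [in0] at h
    rw [← h]
    conv_rhs => rw [← mar0]
    rw [integral_map m0.aemeasurable hfc.aestronglyMeasurable]
  have M2 : ∫ g, m g ^ 2 ∂g1 =
      ∫ x : Fin 2 → ℝ, f (∑ j, b 0 j * x j) * f (∑ j, b 1 j * x j) ∂(Gam 2) := by
    have h := integral_prod _ int2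
    simp only [in2] at h
    rw [← h]
    have hF : Measurable (fun p : ℝ × ℝ => f p.1 * f p.2) :=
      (hfc.measurable.comp measurable_fst).mul (hfc.measurable.comp measurable_snd)
    have e1 := integral_map (μ := g3) (pr'_meas s t).aemeasurable
      (f := fun p : ℝ × ℝ => f p.1 * f p.2) hF.aestronglyMeasurable
    have e2 := integral_map (μ := Gam 2) (pr_meas b).aemeasurable
      (f := fun p : ℝ × ℝ => f p.1 * f p.2) hF.aestronglyMeasurable
    rw [← hlaw] at e1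
    exact (e1.symm.trans e2)
  have key : 0 ≤ ∫ g, (m g - ∫ x, f x ∂g1) ^ 2 ∂g1 := integral_nonneg fun _ => sq_nonneg _
  have hexp : ∫ g, (m g - ∫ x, f x ∂g1) ^ 2 ∂g1 =
      ∫ g, m g ^ 2 ∂g1 - (∫ x, f x ∂g1) * ∫ x, f x ∂g1 := by
    set K := ∫ x, f x ∂g1 with hK
    have e : ∀ g, (m g - K) ^ 2 = (m g ^ 2 - 2 * K * m g) + K ^ 2 := fun g => by ring
    simp only [e]
    have a2 : Integrable (fun g => 2 * K * m g) g1 := im.const_mul (2 * K)
    have a1 : Integrable (fun g => m g ^ 2 - 2 * K * m g) g1 := im2.sub a2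
    rw [integral_add a1 (integrable_const (K ^ 2)), integral_sub im2 a2, integral_const_mul, M0,
      integral_const]
    simp only [probReal_univ, one_smul]
    ring
  rw [hexp, M2] at key
  linarith

theorem p_TWO : P_TWO := by
  intro b nu hb h0 h1
  rcases le_total 0 (∑ j, b 0 j * b 1 j) with hc | hc
  · exact two_pos b nu hb h0 h1 hc
  · have h := two_pos ![b 0, -b 1] nu (by
      intro i
      fin_cases i
      · simpa using hb 0
      · simpa using hb 1) h0 h1 (by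
      simp only [Matrix.cons_val_zero, Matrix.cons_val_one, Pi.neg_apply, mul_neg,
        Finset.sum_neg_distrib]
      linarith)
    simp only [Matrix.cons_val_zero, Matrix.cons_val_one, Pi.neg_apply, neg_mul,
      Finset.sum_neg_distrib, abs_neg] at h
    exact h

end Pool.Agent.W2helper93.GP5
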